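import Pool.Agent.Helper68.Fam.Goals

/-!
# Project FAM, packet OUT

In a graph with all degrees at most two a connected set has at most two outer neighbours.
-/

namespace NApexGraphs.Fam.Helper27

open SimpleGraph NApexGraphs NApexGraphs.Dom NApexGraphs.Fam

theorem out_aux {V : Type} [Finite V] (H : SimpleGraph V) (C : Set V)
    (hlow : ∀ x ∈ C, Low H C x) : ∀ n : ℕ, ∀ D : Set V, D.ncard = n → D ⊆ C → Conn H D →
    ∀ a ∈ C \ D, ∀ b ∈ C \ D, ∀ c ∈ C \ D, Touch H D {a} → Touch H D {b} →
    Touch H D {c} → a = b ∨ a = c ∨ b = c := by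
  intro n
  induction n using Nat.strong_induction_on with
  | _ n ih =>
    intro D hn hDC hD a ha b hb c hc hta htb htc
    obtain ⟨d0, hd0⟩ := hD.1
    by_cases hsing : D = {d0}
    · subst hsing
      obtain ⟨p, hp, a', ha', hpa⟩ := hta
      obtain ⟨q, hq, b', hb', hqb⟩ := htb
      obtain ⟨r, hr, c', hc', hrc⟩ := htc
      rw [Set.mem_singleton_iff] at hp hq hr ha' hb' hc'
      subst hp hq hr ha' hb' hc'
      exact hlow _ (hDC rfl) _ ha.1 _ hb.1 _ hc.1 hpa hqb hrc
    · have hfin : {S : Set V | S ⊆ D ∧ S ≠ D ∧ Conn H S}.Finite := Set.toFinite _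
      have hne : {S : Set V | S ⊆ D ∧ S ≠ D ∧ Conn H S}.Nonempty := by
        refine ⟨{d0}, ?_, fun h => hsing h.symm, Conn.singleton H d0⟩
        intro y hy
        rw [Set.mem_singleton_iff] at hy
        rw [hy]; exact hd0
      obtain ⟨D', hmax⟩ := hfin.exists_maximal hne
      obtain ⟨hD'D, hD'ne, hD'c⟩ := hmax.prop
      have hss : (D \ D').Nonempty := by
        rw [Set.sdiff_nonempty]
        exact fun h => hD'ne (Set.Subset.antisymm hD'D h)
      have hint : (D ∩ D').Nonempty := by
        obtain ⟨y, hy⟩ := hD'c.1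
        exact ⟨y, hD'D hy, hy⟩
      obtain ⟨d, hdD, hdD', x, hxD, hxD', hdx⟩ := hD.exists_edge hint hss
      have hun : Conn H (D' ∪ {x}) :=
        hD'c.union (Conn.singleton H x) ⟨d, hdD', x, rfl, hdx⟩
      have hunD : D' ∪ {x} ⊆ D := by
        rintro y (hy | hy)
        · exact hD'D hy
        · rw [Set.mem_singleton_iff] at hy
          rw [hy]; exact hxD
      have hDeq : D' ∪ {x} = D := by
        by_contra hne'
        have h1 : D' ∪ {x} ⊆ D' := hmax.le_of_ge ⟨hunD, hne', hun⟩ Set.subset_union_left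
        exact hxD' (h1 (Or.inr rfl))
      have hlt : D'.ncard < n := by
        rw [← hn]
        exact Set.ncard_lt_ncard ⟨hD'D, fun h => hD'ne (Set.Subset.antisymm hD'D h)⟩
          (Set.toFinite D)
      have hxC : x ∈ C \ D' := ⟨hDC hxD, hxD'⟩
      have htx : Touch H D' {x} := ⟨d, hdD', x, rfl, hdx⟩
      have hout : ∀ e, e ∈ C \ D → e ∈ C \ D' := fun e he => ⟨he.1, fun h => he.2 (hD'D h)⟩
      have hxne : ∀ e, e ∈ C \ D → e ≠ x := fun e he h => he.2 (h ▸ hxD)
      have hdne : ∀ e, e ∈ C \ D → d ≠ e := fun e he h => he.2 (h ▸ hdD)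
      have split : ∀ e, Touch H D {e} → Touch H D' {e} ∨ H.Adj x e := by
        rintro e ⟨y, hy, z, hz, hyz⟩
        rw [Set.mem_singleton_iff] at hz
        subst hz
        rw [← hDeq] at hy
        rcases hy with hy | hy
        · exact Or.inl ⟨y, hy, z, rfl, hyz⟩
        · rw [Set.mem_singleton_iff] at hy
          rw [hy] at hyz
          exact Or.inr hyz
      have two1 : ∀ e ∈ C \ D, ∀ f ∈ C \ D, Touch H D' {e} → Touch H D' {f} → e = f := by
        intro e he f hf h1 h2
        rcases ih _ hlt D' rfl (hD'D.trans hDC) hD'c e (hout e he) f (hout f hf) x hxC h1 h2 htx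
          with h | h | h
        · exact h
        · exact absurd h (hxne e he)
        · exact absurd h (hxne f hf)
      have two2 : ∀ e ∈ C \ D, ∀ f ∈ C \ D, H.Adj x e → H.Adj x f → e = f := by
        intro e he f hf h1 h2
        rcases hlow x (hDC hxD) d (hDC hdD) e he.1 f hf.1 hdx.symm h1 h2 with h | h | h
        · exact absurd h (hdne e he)
        · exact absurd h (hdne f hf)
        · exact h
      rcases split a hta with h1 | h1 <;> rcases split b htb with h2 | h2 <;>
        rcases split c htc with h3 | h3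
      · exact Or.inl (two1 a ha b hb h1 h2)
      · exact Or.inl (two1 a ha b hb h1 h2)
      · exact Or.inr (Or.inl (two1 a ha c hc h1 h3))
      · exact Or.inr (Or.inr (two2 b hb c hc h2 h3))
      · exact Or.inr (Or.inr (two1 b hb c hc h2 h3))
      · exact Or.inr (Or.inl (two2 a ha c hc h1 h3))
      · exact Or.inl (two2 a ha b hb h1 h2)
      · exact Or.inl (two2 a ha b hb h1 h2)

theorem gOUT : Goals.OUT :=
  fun _ _ H C D hlow hDC hD => out_aux H C hlow _ D rfl hDC hD

end NApexGraphs.Fam.Helper27
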